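import Pool.Agent.Helper13.M.Defs
import Pool.Agent.Helper13.M.DefsC

/-!
# Project MP (MP_e66f84_ag): the quadratic twists which are soluble at the primes dividing the twist

`k` number field, `X → Y` a double cover as in project M.  Locally, at almost all primes `v` with
`v(c)` odd, the twist by `c` has a section (a point) exactly if a Frobenius element at `v` fixes a
branch point.  The number of classes `c` with this property at all `v ∉ Σ` and `cond c ≤ X` is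
`≍ X (log X) ^ (κ - 1)`, `κ` the proportion of the `σ` which fix a branch point.  Final theorem: at
most `C X (log X) ^ (κ - 1 - η)` of them have a section over `k`: 100% of the locally soluble twists
have none.  Block statements.
-/

set_option autoImplicit false

namespace Pool.Agent.MP

open VC IntermediateField NumberField IsDedekindDomain Pool.Agent.SC Pool.Agent.L
open Pool.Agent.HG (Pr nm IsOdd Ctx Gd)
open Pool.Agent.Helper99.HG (CD pf Nm Bad BT WJ)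

noncomputable section

/-! ## Counting, relative to a set `R` of primes of density `κ` -/

section count

variable {k : ℕ} {G : Type}

/-- elementary facts on the distribution of the primes; `κ` is the density of the set `R` -/
structure SysR (P : Type) (nm : P → ℕ) (R : Set P) (κ : ℝ) : Prop where
  two : ∀ p, 2 ≤ nm p
  fin : ∀ x : ℕ, {p | nm p ≤ x}.Finite
  cheb : ∃ C : ℝ, ∀ x : ℕ, ∀ S : Finset P, (∀ p ∈ S, nm p ≤ x) → ∑ p ∈ S, Real.log (nm p) ≤ C * x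
  mert : ∃ C : ℝ, ∀ y x : ℕ, 2 ≤ y → y ≤ x → ∀ S : Finset P,
    (∀ p ∈ S, p ∈ R ∧ y < nm p ∧ nm p ≤ x) →
    ∑ p ∈ S, (1 : ℝ) / nm p ≤ κ * (Real.log (Real.log x) - Real.log (Real.log y)) + C

/-- the primes of `R` without options with components in `J` have positive density -/
def TAR (D : CD k G) (R : Set D.P) (J : Finset (Fin k)) : Prop :=
  ∃ δ C : ℝ, 0 < δ ∧ ∀ y x : ℕ, 2 ≤ y → y ≤ x → ∀ S : Finset D.P,
    (∀ p, p ∈ S ↔ p ∈ R ∧ p ∉ D.Ex ∧ y < D.nm p ∧ D.nm p ≤ x ∧ ∀ o ∈ D.V p, D.cmp o ∉ J) →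
    δ * (Real.log (Real.log x) - Real.log (Real.log y)) - C ≤ ∑ p ∈ S, (1 : ℝ) / D.nm p

/-- the weights are less than `κ` in the mean -/
def TBR (D : CD k G) (R : Set D.P) (κ : ℝ) (J : Finset (Fin k)) : Prop :=
  J.Nonempty ∧ ∃ δ C : ℝ, 0 < δ ∧ ∀ y x : ℕ, 2 ≤ y → y ≤ x → ∀ S : Finset D.P,
    (∀ p, p ∈ S ↔ p ∈ R ∧ p ∉ D.Ex ∧ y < D.nm p ∧ D.nm p ≤ x) →
    ∑ p ∈ S, WJ D J p / D.nm p ≤
      (κ - δ) * (Real.log (Real.log x) - Real.log (Real.log y)) + C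

/-- BLOCK CK: the counting theorem, relative form (`Helper99.HG.countR` is the case `R = univ`,
`κ = 1`). -/
def StmtCountK : Prop :=
  ∀ (k : ℕ) (G : Type) [CommGroup G] (D : CD k G) (R : Set D.P) (κ : ℝ), 0 < κ → κ ≤ 1 →
    SysR D.P D.nm R κ → (∃ K : ℕ, ∀ p, (D.V p).card ≤ K) → BT D →
    (∀ J : Finset (Fin k), TAR D R J ∨ TBR D R κ J) →
    ∃ η C : ℝ, 0 < η ∧ 0 < C ∧ ∀ X : ℕ, 3 ≤ X → ∀ S : Finset (Finset D.P),
      (∀ c ∈ S, Nm D c ≤ X ∧ (∀ p ∈ pf D c, p ∈ R) ∧ Bad D c) →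
      (S.card : ℝ) ≤ C * X * Real.log X ^ (κ - 1 - η)

end count

/-! ## The densities -/

open scoped Classical in
/-- BLOCK DK (from `M.StmtW3`): the primes modulo which a root of `f` lies in the residue field
have density `κ`, and if some `σ` fixes a root, but none of the Galois stable set `J`, then so do
the Frobenius elements at a set of primes of positive density. -/
def StmtDK : Prop :=
  M.StmtW3 → ∀ (k L : Type) [Field k] [NumberField k] [Field L] [NumberField L] [Algebra k L]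
    [IsGalois k L] (f : Polynomial k) (X : Ctx k L f), 0 < f.natDegree →
    ∀ B : ℕ → Finset (Pr k), (∀ x v, v ∈ B x ↔ nm v ≤ x) →
    (∃ C : ℝ, ∀ x : ℕ, 2 ≤ x → |∑ v ∈ (B x).filter (fun v => (X.Fx v).Nonempty), (1 : ℝ) / nm v -
      ((Nat.card {σ : L ≃ₐ[k] L // ∃ θ ∈ X.Ω, σ θ = θ} : ℝ) / Nat.card (L ≃ₐ[k] L)) *
        Real.log (Real.log x)| ≤ C) ∧
    ∀ J : Finset L, (∀ σ : L ≃ₐ[k] L, ∀ θ ∈ J, σ θ ∈ J) →
      (∃ σ : L ≃ₐ[k] L, (∃ θ ∈ X.Ω, σ θ = θ) ∧ ∀ θ ∈ J, σ θ ≠ θ) →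
      ∃ δ C : ℝ, 0 < δ ∧ ∀ x : ℕ, 2 ≤ x →
        |∑ v ∈ (B x).filter (fun v => (X.Fx v).Nonempty ∧ ∀ θ ∈ J, X.F v θ ≠ θ), (1 : ℝ) / nm v -
          δ * Real.log (Real.log x)| ≤ C

open scoped Classical in
/-- BLOCK G3K: the weights, with multiplicities, relative to the primes with a root.  Hypothesis
`H4`: for every Galois stable set `J` of at most four roots some `σ` fixes a root, but none in `J`. -/
def StmtG3K : Prop :=
  HG.StmtMert → HG.StmtSplit → StmtDK → M.StmtW3 → ∀ (k L : Type) [Field k] [NumberField k]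
    [Field L] [NumberField L] [Algebra k L] [IsGalois k L] (f : Polynomial k), 5 ≤ f.natDegree →
    (∀ J : Finset L, (∀ σ : L ≃ₐ[k] L, ∀ θ ∈ J, σ θ ∈ J) → (J : Set L) ⊆ f.rootSet L →
      J.card ≤ 4 → ∃ σ : L ≃ₐ[k] L, (∃ θ ∈ f.rootSet L, σ θ = θ) ∧ ∀ θ ∈ J, σ θ ≠ θ) →
    ∀ K : ℕ, ∃ ε : ℝ, 0 < ε ∧ ∀ (X : Ctx k L f) (hm : 0 < X.m)
      (hfin : {v : Pr k | ¬ Gd X.M v}.Finite) (ι : Type) (Vι : Pr k → L → Finset ι)
      (g : Pr k → (Σ _ : L × ℤˣ, ι) → L → ℤˣ), (∀ v t, (Vι v t).card ≤ K) →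
      ∀ Q : Set (Pr k), (∀ v ∉ Q, Gd X.M v → ∀ t, (Vι v t).card ≤ 1) →
      ∀ B : ℕ → Finset (Pr k), (∀ x v, v ∈ B x ↔ nm v ≤ x) → ∀ δ C : ℝ, δ ≤ ε →
      (∀ x : ℕ, 2 ≤ x → |∑ v ∈ (B x).filter (· ∈ Q), (1 : ℝ) / nm v -
        δ * Real.log (Real.log x)| ≤ C) →
      SysR (Pr k) nm {v | (X.Fx v).Nonempty}
        ((Nat.card {σ : L ≃ₐ[k] L // ∃ θ ∈ X.Ω, σ θ = θ} : ℝ) / Nat.card (L ≃ₐ[k] L)) ∧
      (∃ K' : ℕ, ∀ p, ((X.cdM hm hfin ι Vι g).V p).card ≤ K') ∧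
      ∀ J : Finset (Fin X.m), TAR (X.cdM hm hfin ι Vι g) {v : Pr k | (X.Fx v).Nonempty} J ∨
        TBR (X.cdM hm hfin ι Vι g) {v : Pr k | (X.Fx v).Nonempty}
          ((Nat.card {σ : L ≃ₐ[k] L // ∃ θ ∈ X.Ω, σ θ = θ} : ℝ) / Nat.card (L ≃ₐ[k] L)) J

/-! ## The lower bound -/

/-- the prime `v` of `k` splits completely in `L` (up to ramification) -/
def Spl (k L : Type) [Field k] [NumberField k] [Field L] [NumberField L] [Algebra k L]
    (v : Pr k) : Prop :=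
  ∀ P : Pr L, P.asIdeal.comap (algebraMap (𝓞 k) (𝓞 L)) = v.asIdeal → ∀ z : 𝓞 L,
    z ^ nm v - z ∈ P.asIdeal

/-- BLOCK PIT: a lower bound of the right order for the number of the primes which split completely
(from `Helper13.AR.hecke`: `(s - 1) ζ_L(s)` is entire; `ζ_L(1 + i t) ≠ 0` by the inequality
`3 + 4 cos + cos 2`; `Helper7.PNT.wienerIkehara`; the primes of `L` of degree one over `ℚ`). -/
def StmtPIT : Prop :=
  ∀ (k L : Type) [Field k] [NumberField k] [Field L] [NumberField L] [Algebra k L] [IsGalois k L],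
    ∃ (c : ℝ) (K x₀ : ℕ), 0 < c ∧ 1 ≤ K ∧ ∀ x : ℕ, x₀ ≤ x → ∃ S : Finset (Pr k),
      (∀ v ∈ S, x < K * nm v ∧ nm v ≤ x ∧ Spl k L v) ∧ c * x / Real.log x ≤ S.card

open scoped Classical in
/-- BLOCK LOWK (from `StmtPIT`): lower bound for the number of sets of primes of a set `Q` of
density `κ` which contains almost all primes which split completely in `L`. -/
def StmtLOWK : Prop :=
  StmtPIT → HG.StmtMert → ∀ (k L : Type) [Field k] [NumberField k] [Field L] [NumberField L]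
    [Algebra k L] [IsGalois k L] (Bad Q : Set (Pr k)) (κ C : ℝ), Bad.Finite → 0 < κ → κ ≤ 1 →
    (∀ v ∉ Bad, Spl k L v → v ∈ Q) → ∀ B : ℕ → Finset (Pr k), (∀ x v, v ∈ B x ↔ nm v ≤ x) →
    (∀ x : ℕ, 2 ≤ x →
      |∑ v ∈ (B x).filter (· ∈ Q), (1 : ℝ) / nm v - κ * Real.log (Real.log x)| ≤ C) →
    ∃ c₀ : ℝ, 0 < c₀ ∧ ∀ x : ℕ, 3 ≤ x → ∃ S : Finset (Finset (Pr k)),
      (∀ s ∈ S, ∏ v ∈ s, nm v ≤ x ∧ ∀ v ∈ s, v ∈ Q ∧ v ∉ Bad) ∧
      c₀ * x * Real.log x ^ (κ - 1) ≤ S.card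

/-- BLOCK LOWC (pigeonhole): from sets of primes of `Q` to classes `c` in the coset `c₀ W` with
`v ∈ Q` for all `v ∉ Sg` with `v(c)` odd. -/
def StmtLOWC : Prop :=
  ∀ (k : Type) [Field k] [NumberField k] (W : Subgroup kˣ), W.FiniteIndex →
    ∀ (Q Sg : Set (Pr k)), Sg.Finite → ∀ c₀ : kˣ, (∀ v ∉ Sg, IsOdd v (c₀ : k) → v ∈ Q) →
    ∃ (Bad : Set (Pr k)) (D N : ℕ), Bad.Finite ∧ 0 < D ∧ 0 < N ∧
      ∀ (Y : ℕ) (S : Finset (Finset (Pr k))),
      (∀ s ∈ S, ∏ v ∈ s, nm v ≤ Y ∧ ∀ v ∈ s, v ∈ Q ∧ v ∉ Bad) →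
      ∃ T : Finset kˣ, (∀ c ∈ T, ∀ c' ∈ T, (∃ d : k, (c : k) = c' * d ^ 2) → c = c') ∧
        (∀ c ∈ T, HG.cond (c : k) ≤ D * Y ∧ c₀⁻¹ * c ∈ W ∧
          ∀ v ∉ Sg, IsOdd v (c : k) → v ∈ Q) ∧
        S.card ≤ N * T.card

/-! ## Geometric branch points -/

/-- A geometric branch point of `y² = h`: a valuation ring `P` of `K0` containing `k` at which `h`
has odd valuation, with an embedding of its residue field in `E`. -/
@[ext] structure GBr (k : Type) {K0 : Type} (E : Type) [Field k] [Field K0] [Field E] [Algebra k K0]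
    [Algebra k E] (h : K0) where
  P : ValuationSubring K0
  φ : P →+* E
  const : ∀ a : k, algebraMap k K0 a ∈ P
  odd : ∀ z : K0, P.valuation h ≠ P.valuation z ^ 2
  emb : ∀ (a : k) (x : P), (x : K0) = algebraMap k K0 a → φ x = algebraMap k E a

/-- the action of the Galois group -/
def GBr.map {k K0 E : Type} [Field k] [Field K0] [Field E] [Algebra k K0] [Algebra k E] {h : K0}
    (b : GBr k E h) (g : E ≃ₐ[k] E) : GBr k E h where
  P := b.P
  φ := (g : E →+* E).comp b.φ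
  const := b.const
  odd := b.odd
  emb := fun a x hx => by
    change g (b.φ x) = _
    rw [b.emb a x hx, g.commutes]

/-- BLOCK BIJ: the geometric branch points are the places of `L0` over `E` at which `h` has odd
order. -/
def StmtBIJ : Prop :=
  ∀ (k K0 E U : Type) [Field k] [NumberField k] [Field K0] [Field E] [Field U] [Algebra k K0]
    [Algebra k E] [Algebra E U] [Algebra K0 U] [Algebra k U] [IsScalarTower k E U]
    [IsScalarTower k K0 U] (h : K0) (r : U), Geo k K0 E U h r →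
    ∀ (c : k) (Φ : (E ≃ₐ[k] E) →* (U ≃+* U)), c ≠ 0 → Act (K0 := K0) r c Φ →
    ∃ β : {b : Place E (L0 E K0 (U := U)) // M.BPl h b} ≃ GBr k E h,
      ∀ (g : E ≃ₐ[k] E) (b b' : {b : Place E (L0 E K0 (U := U)) // M.BPl h b}),
        M.Moves (Φ g) _ b.1 b'.1 ↔ (β b).map g = β b'

/-! ## The final theorem -/

/-- a Frobenius element at `v` fixes a branch point -/
def FrobFix (k : Type) {K0 : Type} [Field k] [NumberField k] [Field K0] [Algebra k K0] (h : K0)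
    (v : Pr k) : Prop :=
  ∃ (O : ValuationSubring (AlgebraicClosure k)) (F : AlgebraicClosure k ≃ₐ[k] AlgebraicClosure k)
    (p f : ℕ), DecPt v O F p f ∧ ∃ b : GBr k (AlgebraicClosure k) h, b.map F = b

/-- hypothesis `H4` -/
def H4 (k : Type) {K0 : Type} [Field k] [Field K0] [Algebra k K0] (h : K0) : Prop :=
  5 ≤ Nat.card (GBr k (AlgebraicClosure k) h) ∧
  ∀ J : Set (GBr k (AlgebraicClosure k) h), (∀ g, ∀ b ∈ J, b.map g ∈ J) → J.encard ≤ 4 →
    ∃ σ : AlgebraicClosure k ≃ₐ[k] AlgebraicClosure k,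
      (∃ b : GBr k (AlgebraicClosure k) h, b.map σ = b) ∧ ∀ b ∈ J, b.map σ ≠ b

/-- The final theorem of project MP. -/
def StmtFinMP : Prop :=
  ∀ (k K0 : Type) [Field k] [NumberField k] [Field K0] [Algebra k K0] (h : K0), GoodCurve k h →
    H4 k h →
    ∃ (Sg₀ : Set (Pr k)) (κ η C : ℝ), Sg₀.Finite ∧ 0 < κ ∧ κ ≤ 1 ∧ 0 < η ∧ 0 < C ∧
      (∀ c : k, c ≠ 0 → HasSec h c → ∀ v ∉ Sg₀, IsOdd v c → FrobFix k h v) ∧
      -- upper bound for the twists with sections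
      (∀ X : ℕ, 3 ≤ X → ∀ T : Finset k,
        (∀ c ∈ T, ∀ c' ∈ T, (∃ d : k, c = c' * d ^ 2) → c = c') →
        (∀ c ∈ T, c ≠ 0 ∧ HG.cond c ≤ X ∧ HasSec h c) →
        (T.card : ℝ) ≤ C * X * Real.log X ^ (κ - 1 - η)) ∧
      -- lower bound for the twists soluble at the primes dividing them
      ∀ (Sg : Set (Pr k)), Sg.Finite → ∀ (W : Subgroup kˣ), W.FiniteIndex → ∀ c₀ : kˣ,
        (∀ v ∉ Sg, IsOdd v (c₀ : k) → FrobFix k h v) →
        ∃ (δ : ℝ) (X₀ : ℕ), 0 < δ ∧ ∀ X : ℕ, X₀ ≤ X → ∃ T : Finset kˣ,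
          (∀ c ∈ T, ∀ c' ∈ T, (∃ d : k, (c : k) = c' * d ^ 2) → c = c') ∧
          (∀ c ∈ T, HG.cond (c : k) ≤ X ∧ c₀⁻¹ * c ∈ W ∧
            ∀ v ∉ Sg, IsOdd v (c : k) → FrobFix k h v) ∧
          δ * X * Real.log X ^ (κ - 1) ≤ T.card

end

end Pool.Agent.MP
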