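import Pool.Agent.Helper13.MP.Fin1
import Pool.Agent.Helper45.HG.Ratio

/-!
# Project MP: the lower bound
-/

set_option autoImplicit false
set_option linter.unusedSectionVars false

namespace Pool.Agent.MP

open VC IntermediateField NumberField IsDedekindDomain Pool.Agent.SC Pool.Agent.L Pool.Agent.M
open Pool.Agent.HG (Pr nm IsOdd Ctx Gd Ev Od DatM StmtDer StmtSel StmtMert StmtSplit StmtBTL
  StmtThue StmtG4 StmtG2 StmtG1M StmtG2M StmtG3M)

/-- modulo a completely split prime all roots are in the residue field -/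
theorem fx_of_spl {k L : Type} [Field k] [NumberField k] [Field L] [NumberField L] [Algebra k L]
    [IsGalois k L] {f : Polynomial k} (X : Ctx k L f) (hΩ : X.Ω.Nonempty) {v : Pr k}
    (hv : Gd X.M v) (hs : Spl k L v) : (X.Fx v).Nonempty := by
  classical
  obtain ⟨θ, hθ⟩ := hΩ
  refine ⟨θ, ?_⟩
  unfold Ctx.Fx
  exact Finset.mem_filter.2 ⟨hθ, X.fix_split5 hv (hs (X.P v) (X.comap v)) hθ⟩

open scoped Classical in
/-- the lower bound for the twists which are soluble at the primes dividing them -/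
theorem lowerK (hLFT : StmtLFT) (hW3 : StmtW3) (hMert : StmtMert) (hThue : StmtThue)
    (hG4 : StmtG4) (hDK : StmtDK) (hPIT : StmtPIT) (hLOWK : StmtLOWK) (hLOWC : StmtLOWC)
    {k K0 E U : Type} [Field k] [NumberField k]
    [Field K0] [Field E] [Field U] [Algebra k K0]
    [Algebra k E] [Algebra E U] [Algebra K0 U] [Algebra k U] [IsScalarTower k E U]
    [IsScalarTower k K0 U] {h : K0} {r : U} (G : Geo k K0 E U h r)
    {f : Polynomial k} {θ : Place E (L0 E K0 (U := U)) → E} (Gl' : GlE h r f θ)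
    (hdeg : 4 ≤ f.natDegree) {c₁ : k} {Φ₁ : (E ≃ₐ[k] E) →* (U ≃+* U)} (hc₁ : c₁ ≠ 0)
    (hA₁ : Act (K0 := K0) r c₁ Φ₁) (e : E ≃ₐ[k] AlgebraicClosure k)
    (β : {b : Place E (L0 E K0 (U := U)) // BPl h b} ≃ GBr k E h)
    (hβ : ∀ (g : E ≃ₐ[k] E) (b b' : {b : Place E (L0 E K0 (U := U)) // BPl h b}),
      Moves (Φ₁ g) _ b.1 b'.1 ↔ (β b).map g = β b')
    {Sg : Set (Pr k)} (hSg : Sg.Finite) {W : Subgroup kˣ} (hW : W.FiniteIndex) {c₀ : kˣ}
    (hc₀ : ∀ v ∉ Sg, IsOdd v (c₀ : k) → FrobFix k h v) :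
    ∃ (δ : ℝ) (X₀ : ℕ), 0 < δ ∧ ∀ X : ℕ, X₀ ≤ X → ∃ T : Finset kˣ,
      (∀ c ∈ T, ∀ c' ∈ T, (∃ d : k, (c : k) = c' * d ^ 2) → c = c') ∧
      (∀ c ∈ T, HG.cond (c : k) ≤ X ∧ c₀⁻¹ * c ∈ W ∧
        ∀ v ∉ Sg, IsOdd v (c : k) → FrobFix k h v) ∧
      δ * (X * Real.log X ^ (kap f - 1)) ≤ T.card := by
  have hclE : IsAlgClosed E := G.clE
  have halg : Algebra.IsAlgebraic k E := G.algE
  have hcE : CharZero E := charZero_of_injective_algebraMap (algebraMap k E).injective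
  have hNF : NumberField f.SplittingField := NumberField.of_module_finite k f.SplittingField
  have hGal : IsGalois k f.SplittingField := IsGalois.of_separable_splitting_field Gl'.sep
  have hsplit : (f.map (algebraMap k f.SplittingField)).Splits := Polynomial.SplittingField.splits f
  let ι : f.SplittingField →ₐ[k] E := IsAlgClosed.lift
  obtain ⟨M₂, hM₂, hlft⟩ := hLFT k f.SplittingField E ι
  obtain ⟨X, hMX, hm, hfin⟩ := hG4 hThue k f.SplittingField f Gl'.sep hsplit hdeg M₂ hM₂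
  obtain ⟨B, hB⟩ := Pool.Agent.HG.exists_B5 k
  -- the roots
  have hΩ : X.Ω.Nonempty := by
    by_contra hcon
    rw [Finset.not_nonempty_iff_eq_empty] at hcon
    obtain ⟨x, hx⟩ := IsAlgClosed.exists_aeval_eq_zero E f (by
      intro h0
      have := Polynomial.natDegree_eq_zero_iff_degree_le_zero.2 h0.le
      omega)
    obtain ⟨b, hb, _⟩ := Gl'.ex x hx
    obtain ⟨y, hy, _⟩ := exists_root13 Gl' ι hsplit hb
    have h1 := (X.mem_Ω y).2 hy
    rw [hcon] at h1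
    exact Finset.notMem_empty y h1
  -- the primes modulo which there is a root
  have hQF : ∀ v : Pr k, Gd X.M v → (X.Fx v).Nonempty → FrobFix k h v := by
    intro v hv ⟨x, hx⟩
    obtain ⟨hxΩ, hxF⟩ := Finset.mem_filter.1 hx
    obtain ⟨O, F, p, n, hD, _, hF⟩ := hlft f X hMX v hv
    obtain ⟨b, hb, hbx⟩ := exists_place13 Gl' ι ((X.mem_Ω x).1 hxΩ)
    have h1 : F (θ b) = θ b := by rw [hbx, hF, hxF]
    have h2 := (Gl'.act c₁ Φ₁ hc₁ hA₁ F b b hb hb).2 h1
    have h3 := (hβ F ⟨b, hb⟩ ⟨b, hb⟩).1 h2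
    refine ⟨tO e O, tA e F, p, n, decPt_t e hD, trE e (β ⟨b, hb⟩), ?_⟩
    rw [← trE_map, h3]
  obtain ⟨⟨C, hC⟩, _⟩ := hDK hW3 k f.SplittingField f X (by omega) B hB
  rw [kap_eq X] at hC
  obtain ⟨Bad, D, N, hBad, hD, hN, hST⟩ := hLOWC k W hW {v | FrobFix k h v} Sg hSg c₀ hc₀
  obtain ⟨δ, hδ, hlow⟩ := hLOWK hPIT hMert k f.SplittingField ({v : Pr k | ¬ Gd X.M v} ∪ Bad)
    {v | (X.Fx v).Nonempty} (kap f) C (hfin.union hBad) (kap_pos (by omega)) kap_le
    (fun v hv hs => by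
      rw [Set.mem_union, not_or] at hv
      exact fx_of_spl X hΩ (not_not.1 hv.1) hs) B hB (fun x hx => by convert hC x hx; exact Iff.rfl)
  have hD' : (0 : ℝ) < D := by exact_mod_cast hD
  have hN' : (0 : ℝ) < N := by exact_mod_cast hN
  refine ⟨δ / (2 * D * N), 3 * D, by positivity, fun Y hY => ?_⟩
  -- the bound for the sets
  have hY3 : 3 ≤ Y / D := by
    rw [Nat.le_div_iff_mul_le hD]
    exact hY
  obtain ⟨S, hS, hcard⟩ := hlow (Y / D) hY3
  obtain ⟨T, hT1, hT2, hT3⟩ := hST (Y / D) S fun s hs => by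
    refine ⟨(hS s hs).1, fun v hv => ?_⟩
    obtain ⟨h1, h2⟩ := (hS s hs).2 v hv
    rw [Set.mem_union, not_or] at h2
    exact ⟨hQF v (not_not.1 h2.1) h1, h2.2⟩
  refine ⟨T, hT1, fun c hc => ⟨(hT2 c hc).1.trans (Nat.mul_div_le Y D), (hT2 c hc).2⟩, ?_⟩
  have hYD : (Y : ℝ) ≤ 2 * D * ((Y / D : ℕ) : ℝ) := by
    have h1 : Y < D * (Y / D) + D := by
      have := Nat.div_add_mod Y D
      have := Nat.mod_lt Y hD
      omega
    have h2 : D ≤ D * (Y / D) := by
      calc D = D * 1 := (mul_one D).symm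
        _ ≤ D * (Y / D) := Nat.mul_le_mul_left D (by omega)
    have h3 : Y ≤ 2 * D * (Y / D) := by
      have : 2 * D * (Y / D) = D * (Y / D) + D * (Y / D) := by ring
      omega
    exact_mod_cast h3
  have hlog3 : 1 ≤ Real.log ((Y / D : ℕ) : ℝ) := by
    rw [← Real.log_exp 1]
    refine Real.log_le_log (Real.exp_pos 1) ?_
    have h1 : (3 : ℝ) ≤ ((Y / D : ℕ) : ℝ) := by exact_mod_cast hY3
    exact Real.exp_one_lt_d9.le.trans (by linarith)
  have hlogle : Real.log ((Y / D : ℕ) : ℝ) ≤ Real.log Y := by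
    refine Real.log_le_log (by
      have h1 : (3 : ℝ) ≤ ((Y / D : ℕ) : ℝ) := by exact_mod_cast hY3
      linarith) ?_
    exact_mod_cast Nat.div_le_self Y D
  have hpow : Real.log Y ^ (kap f - 1) ≤ Real.log ((Y / D : ℕ) : ℝ) ^ (kap f - 1) :=
    Real.rpow_le_rpow_of_nonpos (by linarith) hlogle (by linarith [kap_le (f := f)])
  have hpow0 : 0 ≤ Real.log Y ^ (kap f - 1) := Real.rpow_nonneg (by linarith) _
  have h5 : (S.card : ℝ) ≤ N * T.card := by exact_mod_cast hT3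
  have h6 : δ * (((Y / D : ℕ) : ℝ) * Real.log Y ^ (kap f - 1)) ≤ S.card := by
    refine le_trans ?_ hcard
    rw [← mul_assoc]
    exact mul_le_mul_of_nonneg_left hpow (by positivity)
  have h7 : Y * Real.log Y ^ (kap f - 1) ≤
      2 * D * (((Y / D : ℕ) : ℝ) * Real.log Y ^ (kap f - 1)) := by
    rw [← mul_assoc]
    exact mul_le_mul_of_nonneg_right hYD hpow0
  calc δ / (2 * D * N) * (Y * Real.log Y ^ (kap f - 1))
      ≤ δ / (2 * D * N) * (2 * D * (((Y / D : ℕ) : ℝ) * Real.log Y ^ (kap f - 1))) :=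
        mul_le_mul_of_nonneg_left h7 (by positivity)
    _ = (δ * (((Y / D : ℕ) : ℝ) * Real.log Y ^ (kap f - 1))) / N := by field_simp
    _ ≤ (N * T.card) / N := div_le_div_of_nonneg_right (h6.trans h5) hN'.le
    _ = T.card := by field_simp

end Pool.Agent.MP
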