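import Pool.Agent.Helper13.MP.Defs
import Pool.Agent.Helper13.M.Fin3
import Pool.Agent.Helper10.L.LOC

/-!
# Project MP: geometric branch points, transport; the hypothesis `H4` on the splitting field
-/

set_option autoImplicit false
set_option linter.unusedSectionVars false

namespace Pool.Agent.MP

open VC IntermediateField NumberField IsDedekindDomain Pool.Agent.SC Pool.Agent.L Pool.Agent.M
open Pool.Agent.HG (Pr nm IsOdd Ctx Gd)

noncomputable section

section tr

variable {k K0 E E' : Type} [Field k] [NumberField k] [Field K0] [Field E] [Field E']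
  [Algebra k K0] [Algebra k E] [Algebra k E'] {h : K0}

theorem map_map (b : GBr k E h) (g g' : E ≃ₐ[k] E) : (b.map g').map g = b.map (g * g') := rfl

theorem map_one (b : GBr k E h) : b.map 1 = b := rfl

/-- transport -/
def tr (e : E ≃ₐ[k] E') (b : GBr k E h) : GBr k E' h where
  P := b.P
  φ := (e : E →+* E').comp b.φ
  const := b.const
  odd := b.odd
  emb := fun a x hx => by
    change e (b.φ x) = _
    rw [b.emb a x hx, e.commutes]

/-- transport as an equivalence -/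
def trE (e : E ≃ₐ[k] E') : GBr k E h ≃ GBr k E' h where
  toFun := tr e
  invFun := tr e.symm
  left_inv b := by
    obtain ⟨P, φ, h1, h2, h3⟩ := b
    have h4 : ((e.symm : E' →+* E).comp ((e : E →+* E').comp φ)) = φ :=
      RingHom.ext fun x => e.symm_apply_apply (φ x)
    change (⟨P, (e.symm : E' →+* E).comp ((e : E →+* E').comp φ), _, _, _⟩ : GBr k E h) = _
    congr 1
  right_inv b := by
    obtain ⟨P, φ, h1, h2, h3⟩ := b
    have h4 : ((e : E →+* E').comp ((e.symm : E' →+* E).comp φ)) = φ :=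
      RingHom.ext fun x => e.apply_symm_apply (φ x)
    change (⟨P, (e : E →+* E').comp ((e.symm : E' →+* E).comp φ), _, _, _⟩ : GBr k E' h) = _
    congr 1

theorem trE_map (e : E ≃ₐ[k] E') (b : GBr k E h) (g : E ≃ₐ[k] E) :
    trE e (b.map g) = (trE e b).map (tA e g) := by
  obtain ⟨P, φ, h1, h2, h3⟩ := b
  have h4 : ((e : E →+* E').comp ((g : E →+* E).comp φ)) =
      ((tA e g : E' ≃ₐ[k] E') : E' →+* E').comp ((e : E →+* E').comp φ) := by
    refine RingHom.ext fun x => ?_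
    change e (g (φ x)) = tA e g (e (φ x))
    rw [tA_apply, AlgEquiv.symm_apply_apply]
  change (⟨P, (e : E →+* E').comp ((g : E →+* E).comp φ), _, _, _⟩ : GBr k E' h) =
    ⟨P, ((tA e g : E' ≃ₐ[k] E') : E' →+* E').comp ((e : E →+* E').comp φ), _, _, _⟩
  congr 1

theorem tA_tB (e : E ≃ₐ[k] E') (g : E' ≃ₐ[k] E') : tA e (tB e g) = g := by
  apply AlgEquiv.ext
  intro z
  rw [tA_apply, tB_apply, AlgEquiv.apply_symm_apply, AlgEquiv.apply_symm_apply]

end tr

/-- `H4` over an algebraic closure `E` -/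
theorem h4_E {k K0 E : Type} [Field k] [NumberField k] [Field K0] [Field E] [Algebra k K0] [Algebra k E] {h : K0}
    (e : E ≃ₐ[k] AlgebraicClosure k) (H : H4 k h) :
    5 ≤ Nat.card (GBr k E h) ∧
    ∀ J : Set (GBr k E h), (∀ g, ∀ b ∈ J, b.map g ∈ J) → J.encard ≤ 4 →
      ∃ σ : E ≃ₐ[k] E, (∃ b : GBr k E h, b.map σ = b) ∧ ∀ b ∈ J, b.map σ ≠ b := by
  refine ⟨by rw [Nat.card_congr (trE e)]; exact H.1, fun J hJ hc => ?_⟩
  obtain ⟨σ, ⟨b, hb⟩, hσ⟩ := H.2 (trE e '' J) (by
    rintro g _ ⟨b, hb, rfl⟩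
    refine ⟨b.map (tB e g), hJ _ b hb, ?_⟩
    rw [trE_map, tA_tB]) (by
    rw [(trE (h := h) e).injective.encard_image]
    exact hc)
  refine ⟨tB e σ, ⟨(trE e).symm b, ?_⟩, fun b hb hbb => ?_⟩
  · apply (trE (h := h) e).injective
    rw [trE_map, tA_tB, Equiv.apply_symm_apply, hb]
  · apply hσ _ ⟨b, hb, rfl⟩
    rw [← tA_tB e σ, ← trE_map, hbb]

/-- `H4` excludes rational branch points -/
theorem noRat_of_H4 {k K0 : Type} [Field k] [Field K0] [Algebra k K0] {h : K0} (H : H4 k h) :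
    NoRatBranch k h := by
  classical
  intro P hk hodd
  by_contra hcon
  push Not at hcon
  -- the residue field of `P` is `k`
  let R := IsLocalRing.ResidueField P
  let ι : k →+* P :=
    { toFun := fun a => ⟨algebraMap k K0 a, hk a⟩
      map_one' := Subtype.ext (_root_.map_one _)
      map_mul' := fun a b => Subtype.ext (map_mul _ _ _)
      map_zero' := Subtype.ext (map_zero _)
      map_add' := fun a b => Subtype.ext (map_add _ _ _) }
  let j : k →+* R := (IsLocalRing.residue P).comp ι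
  have hj : Function.Bijective j := by
    refine ⟨j.injective, fun y => ?_⟩
    obtain ⟨x, rfl⟩ := IsLocalRing.residue_surjective y
    obtain ⟨a, ha⟩ := hcon x x.2
    refine ⟨a, ?_⟩
    have h1 : (x - ι a : P) ∈ IsLocalRing.maximalIdeal P := by
      rw [← ValuationSubring.coe_mem_nonunits_iff]
      exact ha
    have h2 : IsLocalRing.residue P (x - ι a) = 0 := by
      rw [IsLocalRing.residue_eq_zero_iff]
      exact h1
    rw [map_sub, sub_eq_zero] at h2
    exact h2.symm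
  let ej : k ≃+* R := RingEquiv.ofBijective j hj
  let b : GBr k (AlgebraicClosure k) h :=
    { P := P
      φ := ((algebraMap k (AlgebraicClosure k)).comp (ej.symm : R →+* k)).comp
        (IsLocalRing.residue P)
      const := hk
      odd := hodd
      emb := fun a x hx => by
        have h1 : x = ι a := Subtype.ext hx
        have h2 : ej a = IsLocalRing.residue P x := by rw [h1]; rfl
        change algebraMap k (AlgebraicClosure k) (ej.symm (IsLocalRing.residue P x)) = _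
        rw [← h2, RingEquiv.symm_apply_apply] }
  have hfix : ∀ g : AlgebraicClosure k ≃ₐ[k] AlgebraicClosure k, b.map g = b := by
    intro g
    have h4 : ((g : AlgebraicClosure k →+* AlgebraicClosure k).comp b.φ) = b.φ := by
      refine RingHom.ext fun x => ?_
      exact g.commutes _
    change (⟨P, (g : AlgebraicClosure k →+* AlgebraicClosure k).comp b.φ, _, _, _⟩ :
      GBr k (AlgebraicClosure k) h) = ⟨P, b.φ, _, _, _⟩
    congr 1
  obtain ⟨σ, _, hσ⟩ := H.2 {b} (by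
    intro g b' hb'
    rw [Set.mem_singleton_iff] at hb'
    rw [hb', hfix]
    rfl) (by
    rw [Set.encard_singleton]
    norm_num)
  exact hσ b rfl (hfix σ)

section roots

variable {k K0 E U : Type} [Field k] [NumberField k] [Field K0] [Field E] [IsAlgClosed E]
  [Field U] [Algebra k K0] [Algebra k E] [Algebra.IsAlgebraic k E] [Algebra E U] [Algebra K0 U]
  [Algebra k U]

/-- `H4` for the places of `L0` -/
theorem h4_places {h : K0} {Φ : (E ≃ₐ[k] E) →* (U ≃+* U)}
    (H5 : 5 ≤ Nat.card (GBr k E h))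
    (H : ∀ J : Set (GBr k E h), (∀ g, ∀ b ∈ J, b.map g ∈ J) → J.encard ≤ 4 →
      ∃ σ : E ≃ₐ[k] E, (∃ b : GBr k E h, b.map σ = b) ∧ ∀ b ∈ J, b.map σ ≠ b)
    (β : {b : Place E (L0 E K0 (U := U)) // BPl h b} ≃ GBr k E h)
    (hβ : ∀ (g : E ≃ₐ[k] E) (b b' : {b : Place E (L0 E K0 (U := U)) // BPl h b}),
      Moves (Φ g) _ b.1 b'.1 ↔ (β b).map g = β b') :
    5 ≤ Nat.card {b : Place E (L0 E K0 (U := U)) // BPl h b} ∧
    ∀ J : Set {b : Place E (L0 E K0 (U := U)) // BPl h b},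
      (∀ (g : E ≃ₐ[k] E), ∀ b ∈ J, ∀ b', Moves (Φ g) _ b.1 b'.1 → b' ∈ J) → J.encard ≤ 4 →
      ∃ σ : E ≃ₐ[k] E, (∃ b : {b : Place E (L0 E K0 (U := U)) // BPl h b}, Moves (Φ σ) _ b.1 b.1) ∧
        ∀ b ∈ J, ¬ Moves (Φ σ) _ b.1 b.1 := by
  refine ⟨by rw [Nat.card_congr β]; exact H5, fun J hJ hc => ?_⟩
  obtain ⟨σ, ⟨b, hb⟩, hσ⟩ := H (β '' J) (by
    rintro g _ ⟨b, hb, rfl⟩
    refine ⟨β.symm ((β b).map g), hJ g b hb _ ?_, ?_⟩
    · rw [hβ, Equiv.apply_symm_apply]
    · rw [Equiv.apply_symm_apply]) (by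
    rw [β.injective.encard_image]
    exact hc)
  refine ⟨σ, ⟨β.symm b, ?_⟩, fun b hb hbb => ?_⟩
  · rw [hβ, Equiv.apply_symm_apply, hb]
  · exact hσ _ ⟨b, hb, rfl⟩ ((hβ σ b b).1 hbb)

/-- `H4` for the roots in the splitting field -/
theorem h4_roots {h : K0} {r : U} {f : Polynomial k} {θ : Place E (L0 E K0 (U := U)) → E}
    (Gl : GlE h r f θ) {c : k} {Φ : (E ≃ₐ[k] E) →* (U ≃+* U)} (hc : c ≠ 0)
    (hA : Act (K0 := K0) r c Φ) {L : Type} [Field L] [NumberField L] [Algebra k L] [IsGalois k L]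
    (ι : L →ₐ[k] E) (hs : (f.map (algebraMap k L)).Splits)
    (H5 : 5 ≤ Nat.card {b : Place E (L0 E K0 (U := U)) // BPl h b})
    (H : ∀ J : Set {b : Place E (L0 E K0 (U := U)) // BPl h b},
      (∀ (g : E ≃ₐ[k] E), ∀ b ∈ J, ∀ b', Moves (Φ g) _ b.1 b'.1 → b' ∈ J) → J.encard ≤ 4 →
      ∃ σ : E ≃ₐ[k] E, (∃ b : {b : Place E (L0 E K0 (U := U)) // BPl h b}, Moves (Φ σ) _ b.1 b.1) ∧
        ∀ b ∈ J, ¬ Moves (Φ σ) _ b.1 b.1) :
    5 ≤ f.natDegree ∧
    ∀ J : Finset L, (∀ σ : L ≃ₐ[k] L, ∀ θ ∈ J, σ θ ∈ J) → (J : Set L) ⊆ f.rootSet L →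
      J.card ≤ 4 → ∃ σ : L ≃ₐ[k] L, (∃ θ ∈ f.rootSet L, σ θ = θ) ∧ ∀ θ ∈ J, σ θ ≠ θ := by
  classical
  constructor
  · -- the roots in `E` are the branch points
    have hcE : CharZero E := charZero_of_injective_algebraMap (algebraMap k E).injective
    refine H5.trans ?_
    have h1 : Nat.card {b : Place E (L0 E K0 (U := U)) // BPl h b} ≤ Nat.card (f.rootSet E) := by
      have : Finite (f.rootSet E) := (f.rootSet_finite E).to_subtype
      refine Nat.card_le_card_of_injective (fun b => (⟨θ b.1, ?_⟩ : f.rootSet E)) ?_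
      · rw [Polynomial.mem_rootSet]
        exact ⟨Gl.sep.ne_zero, Gl.root b.1 b.2⟩
      · intro b b' hbb
        exact Subtype.ext (Gl.inj _ _ b.2 b'.2 (congrArg Subtype.val hbb))
    refine h1.trans ?_
    rw [Nat.card_coe_set_eq]
    exact Polynomial.ncard_rootSet_le f E
  · intro J hJ hsub hcard
    let J' : Set {b : Place E (L0 E K0 (U := U)) // BPl h b} := {b | ∃ x ∈ J, ι x = θ b.1}
    have hinj : ∀ b ∈ J', ∀ b' ∈ J', θ b.1 = θ b'.1 → b = b' := fun b _ b' _ hbb =>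
      Subtype.ext (Gl.inj _ _ b.2 b'.2 hbb)
    obtain ⟨σ, ⟨b, hb⟩, hσ⟩ := H J' (by
      rintro g b ⟨x, hx, hxb⟩ b' hm
      obtain ⟨τ, hτ⟩ := exists_res13 ι g
      refine ⟨τ x, hJ τ x hx, ?_⟩
      rw [← hτ, hxb]
      exact (Gl.act c Φ hc hA g b.1 b'.1 b.2 b'.2).1 hm) (by
      -- the number of elements
      have h1 : Set.InjOn (fun b : {b : Place E (L0 E K0 (U := U)) // BPl h b} => θ b.1) J' :=
        fun b hb b' hb' hbb => hinj b hb b' hb' hbb
      have h2 : (fun b : {b : Place E (L0 E K0 (U := U)) // BPl h b} => θ b.1) '' J' ⊆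
          (J.image ι : Finset E) := by
        rintro _ ⟨b, ⟨x, hx, hxb⟩, rfl⟩
        rw [Finset.mem_coe, Finset.mem_image]
        exact ⟨x, hx, hxb⟩
      have h3 := Set.encard_le_encard h2
      rw [h1.encard_image, Set.encard_coe_eq_coe_finsetCard] at h3
      refine h3.trans ?_
      have h4 : (J.image ι).card ≤ 4 := Finset.card_image_le.trans hcard
      exact_mod_cast h4)
    obtain ⟨τ, hτ⟩ := exists_res13 ι σ
    refine ⟨τ, ?_, ?_⟩
    · obtain ⟨x, hx, hxb⟩ := exists_root13 Gl ι hs b.2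
      refine ⟨x, hx, ι.injective (?_ : ι (τ x) = ι x)⟩
      rw [← hτ, hxb]
      exact (Gl.act c Φ hc hA σ b.1 b.1 b.2 b.2).1 hb
    · intro x hx hxx
      obtain ⟨b', hb', hxb⟩ := exists_place13 Gl ι (hsub hx)
      refine hσ ⟨b', hb'⟩ ⟨x, hx, hxb.symm⟩ ?_
      rw [Gl.act c Φ hc hA σ b' b' hb' hb', hxb, hτ, hxx]

end roots

end

end Pool.Agent.MP
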