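import Pool.Agent.Helper13.M.Fin4
import Pool.Agent.Helper13.MP.GB

/-!
# Project MP: the upper bound
-/

set_option autoImplicit false
set_option linter.unusedSectionVars false

namespace Pool.Agent.MP

open VC IntermediateField NumberField IsDedekindDomain Pool.Agent.SC Pool.Agent.L Pool.Agent.M
open Pool.Agent.HG (Pr nm IsOdd Ctx Gd Ev Od DatM StmtDer StmtSel StmtMert StmtSplit StmtBTL
  StmtThue StmtG4 StmtG2 StmtG1M StmtG2M StmtG3M)

/-- the proportion of the automorphisms with a fixed root -/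
noncomputable def kap {k : Type} [Field k] (f : Polynomial k) : ℝ :=
  (Nat.card {σ : f.SplittingField ≃ₐ[k] f.SplittingField //
    ∃ θ ∈ f.rootSet f.SplittingField, σ θ = θ} : ℝ) /
    Nat.card (f.SplittingField ≃ₐ[k] f.SplittingField)

theorem kap_eq {k : Type} [Field k] [NumberField k] {f : Polynomial k}
    [NumberField f.SplittingField] [IsGalois k f.SplittingField] (X : Ctx k f.SplittingField f) :
    (Nat.card {σ : f.SplittingField ≃ₐ[k] f.SplittingField // ∃ θ ∈ X.Ω, σ θ = θ} : ℝ) /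
      Nat.card (f.SplittingField ≃ₐ[k] f.SplittingField) = kap f := by
  unfold kap
  have h1 : (fun σ : f.SplittingField ≃ₐ[k] f.SplittingField => ∃ θ ∈ X.Ω, σ θ = θ) =
      fun σ => ∃ θ ∈ f.rootSet f.SplittingField, σ θ = θ := by
    funext σ
    simp only [X.mem_Ω]
  rw [show {σ : f.SplittingField ≃ₐ[k] f.SplittingField // ∃ θ ∈ X.Ω, σ θ = θ} =
    {σ : f.SplittingField ≃ₐ[k] f.SplittingField //
      ∃ θ ∈ f.rootSet f.SplittingField, σ θ = θ} from congrArg Subtype h1]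

theorem kap_pos {k : Type} [Field k] [NumberField k] {f : Polynomial k} (hf : 0 < f.natDegree)
    [NumberField f.SplittingField] : 0 < kap f := by
  have hfin : Finite (f.SplittingField ≃ₐ[k] f.SplittingField) := inferInstance
  have h1 : 0 < Nat.card (f.SplittingField ≃ₐ[k] f.SplittingField) := Nat.card_pos
  have h2 : (f.rootSet f.SplittingField).Nonempty := by
    have hd : (f.map (algebraMap k f.SplittingField)).degree ≠ 0 := by
      rw [Polynomial.degree_map]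
      intro h0
      rw [Polynomial.natDegree_eq_of_degree_eq_some h0] at hf
      exact lt_irrefl _ hf
    obtain ⟨x, hx⟩ := (Polynomial.SplittingField.splits f).exists_eval_eq_zero hd
    refine ⟨x, ?_⟩
    rw [Polynomial.mem_rootSet]
    refine ⟨by rintro rfl; simp at hf, ?_⟩
    rw [Polynomial.eval_map_algebraMap] at hx
    exact hx
  obtain ⟨x, hx⟩ := h2
  have h3 : Nonempty {σ : f.SplittingField ≃ₐ[k] f.SplittingField //
      ∃ θ ∈ f.rootSet f.SplittingField, σ θ = θ} := ⟨⟨1, x, hx, rfl⟩⟩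
  have h4 : 0 < Nat.card {σ : f.SplittingField ≃ₐ[k] f.SplittingField //
      ∃ θ ∈ f.rootSet f.SplittingField, σ θ = θ} := Nat.card_pos
  unfold kap
  positivity

theorem kap_le {k : Type} [Field k] [NumberField k] {f : Polynomial k}
    [NumberField f.SplittingField] : kap f ≤ 1 := by
  have hfin : Finite (f.SplittingField ≃ₐ[k] f.SplittingField) := inferInstance
  have h1 : 0 < Nat.card (f.SplittingField ≃ₐ[k] f.SplittingField) := Nat.card_pos
  have h2 : Nat.card {σ : f.SplittingField ≃ₐ[k] f.SplittingField //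
      ∃ θ ∈ f.rootSet f.SplittingField, σ θ = θ} ≤
      Nat.card (f.SplittingField ≃ₐ[k] f.SplittingField) :=
    Nat.card_le_card_of_injective _ Subtype.val_injective
  unfold kap
  rw [div_le_one (by exact_mod_cast h1)]
  exact_mod_cast h2

/-- a bound for finitely many kinds of sets -/
theorem coverK {H P : Type} [Finite H] (g : ℕ → ℝ) (hg : ∀ Y, 0 ≤ g Y)
    (BadP : H → ℕ → Finset P → Prop)
    (h : ∀ i, ∃ η C : ℝ, 0 < η ∧ 0 < C ∧ ∀ Y : ℕ, 3 ≤ Y → ∀ S : Finset (Finset P),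
      (∀ c ∈ S, BadP i Y c) → (S.card : ℝ) ≤ C * g Y / Real.log Y ^ η) :
    ∃ η C : ℝ, 0 < η ∧ 0 < C ∧ ∀ Y : ℕ, 3 ≤ Y → ∀ S : Finset (Finset P),
      (∀ c ∈ S, ∃ i, BadP i Y c) → (S.card : ℝ) ≤ C * g Y / Real.log Y ^ η := by
  classical
  have : Fintype H := Fintype.ofFinite H
  choose η C hη hC hY' using h
  obtain ⟨η₀, hη₀⟩ : ∃ η₀ : ℝ, η₀ = ∏ h, min (η h) 1 := ⟨_, rfl⟩
  have hη₀0 : 0 < η₀ := by
    rw [hη₀]
    exact Finset.prod_pos fun h _ => lt_min (hη h) one_pos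
  have hη₀le : ∀ h, η₀ ≤ η h := by
    intro h
    rw [hη₀, ← Finset.mul_prod_erase Finset.univ (fun h => min (η h) 1) (Finset.mem_univ h)]
    have h1 : ∏ h ∈ Finset.univ.erase h, min (η h) 1 ≤ 1 :=
      Finset.prod_le_one (fun h _ => (lt_min (hη h) one_pos).le) fun h _ => min_le_right _ _
    have h2 : 0 < min (η h) 1 := lt_min (hη h) one_pos
    have h3 : min (η h) 1 ≤ η h := min_le_left _ _
    nlinarith
  have hC0 : 0 ≤ ∑ h, C h := Finset.sum_nonneg fun h _ => (hC h).le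
  refine ⟨η₀, ∑ h, C h + 1, hη₀0, by linarith, fun Y hY3 S hS => ?_⟩
  have hlY : 1 ≤ Real.log Y := by
    rw [← Real.log_exp 1]
    refine Real.log_le_log (Real.exp_pos 1) ?_
    have h1 : (3 : ℝ) ≤ Y := by exact_mod_cast hY3
    exact Real.exp_one_lt_d9.le.trans (by linarith)
  have hlp : 0 < Real.log Y ^ η₀ := Real.rpow_pos_of_pos (by linarith) _
  have hY0 : (0 : ℝ) ≤ g Y := hg Y
  have h2 : ∀ i : H, ((S.filter fun A => BadP i Y A).card : ℝ) ≤ C i * g Y / Real.log Y ^ η₀ := by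
    intro i
    refine (hY' i Y hY3 _ ?_).trans ?_
    · intro A hA
      exact (Finset.mem_filter.1 hA).2
    · refine div_le_div_of_nonneg_left (mul_nonneg (hC i).le hY0) hlp ?_
      exact Real.rpow_le_rpow_of_exponent_le hlY (hη₀le i)
  have hcov : S ⊆ Finset.univ.biUnion fun i : H => S.filter fun A => BadP i Y A := by
    intro A hA
    obtain ⟨i, hi⟩ := hS A hA
    exact Finset.mem_biUnion.2 ⟨i, Finset.mem_univ _, Finset.mem_filter.2 ⟨hA, hi⟩⟩
  have h1 := (Finset.card_le_card hcov).trans Finset.card_biUnion_le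
  calc (S.card : ℝ) ≤ ∑ i : H, ((S.filter fun A => BadP i Y A).card : ℝ) := by exact_mod_cast h1
    _ ≤ ∑ i : H, C i * g Y / Real.log Y ^ η₀ := Finset.sum_le_sum fun i _ => h2 i
    _ = (∑ i, C i) * g Y / Real.log Y ^ η₀ := by rw [← Finset.sum_div, ← Finset.sum_mul]
    _ ≤ (∑ i, C i + 1) * g Y / Real.log Y ^ η₀ := by
        refine div_le_div_of_nonneg_right ?_ hlp.le
        exact mul_le_mul_of_nonneg_right (by linarith) hY0

open scoped Classical in
/-- the upper bound for the twists with sections -/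
theorem upperK (hFIN : StmtFIN) (hZ : StmtZ) (hINT : StmtINT) (hLFT : StmtLFT) (hMU : StmtMU)
    (hQMD : StmtQMD) (hW3 : StmtW3) (hSel : StmtSel) (hMert : StmtMert)
    (hSplit : StmtSplit) (hBTL : StmtBTL) (hThue : StmtThue) (hG4 : StmtG4) (hG2 : StmtG2)
    (hG1M : StmtG1M) (hG2M : StmtG2M) (hDK : StmtDK) (hG3K : StmtG3K) (hCount : StmtCountK)
    {k K0 E U : Type} [Field k] [NumberField k]
    [Field K0] [Field E] [Field U] [Algebra k K0]
    [Algebra k E] [Algebra E U] [Algebra K0 U] [Algebra k U] [IsScalarTower k E U]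
    [IsScalarTower k K0 U] {h : K0} {r : U} (G : Geo k K0 E U h r)
    {f : Polynomial k} {θ : Place E (L0 E K0 (U := U)) → E} (Gl' : GlE h r f θ)
    (hdeg5 : 5 ≤ f.natDegree)
    (hH4 : ∀ (L : Type) [Field L] [NumberField L] [Algebra k L] [IsGalois k L],
      (f.map (algebraMap k L)).Splits → ∀ J : Finset L,
      (∀ σ : L ≃ₐ[k] L, ∀ θ ∈ J, σ θ ∈ J) → (J : Set L) ⊆ f.rootSet L →
      J.card ≤ 4 → ∃ σ : L ≃ₐ[k] L, (∃ θ ∈ f.rootSet L, σ θ = θ) ∧ ∀ θ ∈ J, σ θ ≠ θ) :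
    ∃ η C : ℝ, 0 < η ∧ 0 < C ∧ ∀ X : ℕ, 3 ≤ X → ∀ T : Finset k,
      (∀ c ∈ T, ∀ c' ∈ T, (∃ d : k, c = c' * d ^ 2) → c = c') →
      (∀ c ∈ T, c ≠ 0 ∧ Pool.Agent.HG.cond c ≤ X ∧
        ∃ Φ : (E ≃ₐ[k] E) →* (U ≃+* U), Act (K0 := K0) r c Φ) →
      (T.card : ℝ) ≤ C * (X * Real.log X ^ (kap f - 1)) / Real.log X ^ η := by
  have hclE : IsAlgClosed E := G.clE
  have halg : Algebra.IsAlgebraic k E := G.algE
  have hcE : CharZero E := charZero_of_injective_algebraMap (algebraMap k E).injective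
  have hNF : NumberField f.SplittingField := NumberField.of_module_finite k f.SplittingField
  have hGal : IsGalois k f.SplittingField := IsGalois.of_separable_splitting_field Gl'.sep
  have hsplit : (f.map (algebraMap k f.SplittingField)).Splits := Polynomial.SplittingField.splits f
  let ι : f.SplittingField →ₐ[k] E := IsAlgClosed.lift
  -- a branch point
  obtain ⟨b₀, hb₀⟩ : ∃ b : Place E (L0 E K0 (U := U)), BPl h b := by
    obtain ⟨x, hx⟩ := IsAlgClosed.exists_aeval_eq_zero E f (by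
      intro h0
      have := Polynomial.natDegree_eq_zero_iff_degree_le_zero.2 h0.le
      omega)
    obtain ⟨b, hb, _⟩ := Gl'.ex x hx
    exact ⟨b, hb⟩
  have hne : Nonempty (Place E (NN E K0 2 (U := U))) := exists_pl13 (b := b₀)
  obtain ⟨θL, bt, hGl⟩ := exists_gl13 Gl' ι b₀
  have hdeg : 4 ≤ f.natDegree := by omega
  -- the number of places over a place
  obtain ⟨⟨K, hK⟩, hMU2⟩ := hMU k K0 E U h r G
  -- the density
  obtain ⟨ε, hε, hG3⟩ := hG3K hMert hSplit hDK hW3 k f.SplittingField f hdeg5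
    (hH4 f.SplittingField hsplit) K
  obtain ⟨m, Lm, hm1, hLf, hLg, hdens⟩ := hQMD k K0 E U h r G ε hε
  -- the finitely many actions
  obtain ⟨I, hI, c₁, Φ₁, hΦ₁, hcls⟩ := hFIN k K0 E U h r G m
  obtain ⟨zz, hzz⟩ := exists_zz13 hZ G
  choose Bad hBad hint using fun i => hINT k K0 E U h r G m hm1 (c₁ i) (Φ₁ i) (hΦ₁ i).1
    (hΦ₁ i).2 zz hzz
  obtain ⟨B, hB⟩ := Pool.Agent.HG.exists_B5 k
  choose δ C₀ Bad' Q hδ hBad' hQ hsum using fun i => exists_Q13 hW3 G (hΦ₁ i).2 (m := m) Lm hLf hLg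
    (hdens (c₁ i) (Φ₁ i) (hΦ₁ i).1 (hΦ₁ i).2) B hB
  -- the excluded number
  obtain ⟨M₁, hM₁, hM₁v⟩ := exists_M13
    ((Set.finite_iUnion hBad).union (Set.finite_iUnion hBad'))
  obtain ⟨M₂, hM₂, hlft⟩ := hLFT k f.SplittingField E ι
  obtain ⟨X, hMX, hm, hfin⟩ := hG4 hThue k f.SplittingField f Gl'.sep hsplit hdeg (M₁ * M₂)
    (mul_ne_zero hM₁ hM₂)
  have hM₁X : M₁ ∣ X.M := (Dvd.intro _ rfl).trans hMX
  have hM₂X : M₂ ∣ X.M := (Dvd.intro_left _ rfl).trans hMX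
  have hXBad : ∀ i, ∀ v ∈ Bad i, ¬ Gd X.M v := fun i v hv =>
    hM₁v X.M hM₁X v (Or.inl (Set.mem_iUnion.2 ⟨i, hv⟩))
  have hXBad' : ∀ i, ∀ v ∈ Bad' i, ¬ Gd X.M v := fun i v hv =>
    hM₁v X.M hM₁X v (Or.inr (Set.mem_iUnion.2 ⟨i, hv⟩))
  -- the Frobenius elements
  have hlift : ∀ v : Pr k, ∃ (O : ValuationSubring E) (F : E ≃ₐ[k] E) (p n : ℕ), Gd X.M v →
      DecPt v O F p n ∧ (∀ z : f.SplittingField, ι z ∈ O ↔
        (X.P v).valuation f.SplittingField z ≤ 1) ∧ ∀ z, F (ι z) = ι (X.F v z) := by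
    intro v
    by_cases hv : Gd X.M v
    · obtain ⟨O, F, p, n, h1⟩ := hlft f X hM₂X v hv
      exact ⟨O, F, p, n, fun _ => h1⟩
    · exact ⟨⊤, 1, 0, 0, fun h1 => absurd h1 hv⟩
  choose O F p n hdec using hlift
  -- the options
  let VS : I → Pr k → f.SplittingField → Set (Place E (NN E K0 2 (U := U))) := fun i v t =>
    {P | Gd X.M v ∧ OverPl (bt t) P ∧ ∃ Q : Place E (NN E K0 (2 ^ m) (U := U)), OverPl P Q ∧
      Moves (Φ₁ i (F v)) _ Q Q}
  have hVSsub : ∀ i v t, VS i v t ⊆ {P : Place E (NN E K0 2 (U := U)) | OverPl (bt t) P} :=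
    fun i v t P hP => hP.2.1
  have hVSfin : ∀ i v t, (VS i v t).Finite := fun i v t => (hK (bt t)).1.subset (hVSsub i v t)
  let Vι : I → Pr k → f.SplittingField → Finset (Place E (NN E K0 2 (U := U))) := fun i v t =>
    (hVSfin i v t).toFinset
  have hVιmem : ∀ i v t P, P ∈ Vι i v t ↔ P ∈ VS i v t := fun i v t P =>
    Set.Finite.mem_toFinset _
  have hVιK : ∀ i v t, (Vι i v t).card ≤ K := by
    intro i v t
    refine le_trans ?_ (hK (bt t)).2
    have h1 : (Vι i v t).card = (VS i v t).ncard := (Set.ncard_eq_toFinset_card _ _).symm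
    rw [h1]
    have h2 := Set.ncard_le_ncard (hVSsub i v t) (hK (bt t)).1
    rwa [← Nat.card_coe_set_eq {P : Place E (NN E K0 2 (U := U)) | OverPl (bt t) P}] at h2
  have hVι1 : ∀ i, ∀ v ∉ Q i, Gd X.M v → ∀ t, (Vι i v t).card ≤ 1 := by
    intro i v hvQ hgd t
    have hnQM : ¬ QM E K0 m (Φ₁ i (F v)) :=
      hQ i v (fun h1 => hXBad' i v h1 hgd) (O v) (F v) (p v) (n v) (hdec v hgd).1 hvQ
    rw [Finset.card_le_one]
    intro P hP P' hP'
    rw [hVιmem] at hP hP'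
    obtain ⟨_, h1, R, h2, h3⟩ := hP
    obtain ⟨_, h1', R', h2', h3'⟩ := hP'
    exact hMU2 (c₁ i) (Φ₁ i) (hΦ₁ i).1 (hΦ₁ i).2 m (F v) hm1 hnQM (bt t) P P' R R' h1 h1' h2 h2'
      h3 h3'
  -- the signs
  let SG : I → Pr k → Place E (NN E K0 2 (U := U)) → ℕ → f.SplittingField → f.SplittingField →
      ℤˣ := fun i v P N x x' => sgn (Φ₁ i (F v) ^ N) P (zz (bt x) (bt x'))
  -- the relations
  choose H hH g hg using fun i => hG1M hSel k f.SplittingField f X hdeg hm hfin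
    (Place E (NN E K0 2 (U := U))) (Vι i) (SG i)
  have hHI : Finite (Σ i, H i) := inferInstance
  have hg0 : ∀ Y : ℕ, (0 : ℝ) ≤ Y * Real.log Y ^ (kap f - 1) := fun Y =>
    mul_nonneg (Nat.cast_nonneg Y) (Real.rpow_nonneg (Real.log_natCast_nonneg Y) _)
  obtain ⟨η, C, hη, hC, hbound⟩ := coverK (H := Σ i, H i) (P := Pr k)
    (fun Y : ℕ => Y * Real.log Y ^ (kap f - 1)) hg0
    (fun j Y A => ∏ v ∈ A, nm v ≤ Y ∧
      (∀ v ∈ Pool.Agent.Helper99.HG.pf
        (X.cdM hm hfin (Place E (NN E K0 2 (U := U))) (Vι j.1) (g j.1 j.2)) A,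
        v ∈ {v : Pr k | (X.Fx v).Nonempty}) ∧
      Pool.Agent.Helper99.HG.Bad
      (X.cdM hm hfin (Place E (NN E K0 2 (U := U))) (Vι j.1) (g j.1 j.2)) A) (by
    rintro ⟨i, j⟩
    obtain ⟨a1, a2, a3⟩ := hG3 X hm hfin (Place E (NN E K0 2 (U := U))) (Vι i) (g i j) (hVιK i)
      (Q i) (hVι1 i) B hB (δ i) (C₀ i) (hδ i) (hsum i)
    rw [kap_eq X] at a1 a3
    obtain ⟨η, C, hη, hC, h1⟩ := hCount X.m ℤˣ
      (X.cdM hm hfin (Place E (NN E K0 2 (U := U))) (Vι i) (g i j))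
      {v : Pr k | (X.Fx v).Nonempty} (kap f) (kap_pos (by omega)) kap_le a1 a2
      (hG2M hG2 hBTL hMert k f.SplittingField f X hm hfin _ (Vι i) (g i j)) a3
    refine ⟨η, C, hη, hC, fun Y hY S hS => (h1 Y hY S hS).trans (le_of_eq ?_)⟩
    have hlY : 0 < Real.log Y := Real.log_pos (by
      have h2 : (3 : ℝ) ≤ Y := by exact_mod_cast hY
      linarith)
    rw [Real.rpow_sub hlY, mul_div_assoc, mul_div_assoc, mul_assoc])
  obtain ⟨N, hN⟩ := Pool.Agent.HG.cls_count (k := k) hSel X.hM X.unif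
    (fun p v hp hpM hpv z hz => X.isOdd_iff hp hpM hpv hz)
  refine ⟨η, (N + 1) * C, hη, by positivity, fun Y hY T hT hTc => ?_⟩
  have hlog : 0 ≤ Real.log Y := Real.log_natCast_nonneg Y
  have h1 := hN (fun c : k => ∃ Φ : (E ≃ₐ[k] E) →* (U ≃+* U), Act (K0 := K0) r c Φ) Y
    (C * (Y * Real.log Y ^ (kap f - 1)) / Real.log Y ^ η) (by
      intro SS hSS
      refine hbound Y hY SS fun A hA => ?_
      obtain ⟨h2, c, hc, ⟨Φ, hΦ⟩, hAS⟩ := hSS A hA
      obtain ⟨i, hi⟩ := hcls c Φ hc hΦ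
      obtain ⟨δ', hδ'⟩ := hint i c Φ hc hΦ hi
      obtain ⟨D, t, P, hD, hP⟩ := exists_datM (hGl X (c₁ i) (Φ₁ i) (hΦ₁ i).1 (hΦ₁ i).2)
        (hXBad i) hc hδ' (O := O) (F := F) (p' := p) (n := n) hdec hAS
      obtain ⟨j, hj⟩ := hg i c A D t P hD (by
        intro v hv
        rw [hVιmem]
        exact ⟨((hAS v).1 hv).1, hP v hv⟩)
      refine ⟨⟨i, j⟩, h2, ?_, hj⟩
      intro (v : Pr k) hv
      have hvA : v ∈ A := (Pool.Agent.Helper99.HG.mem_pf.1 hv).1
      exact ⟨t v, Finset.mem_filter.2 ⟨hD.t_mem v hvA, hD.t_fix v hvA⟩⟩) T hT hTc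
  refine h1.trans ?_
  have h3 : 0 ≤ C * (Y * Real.log Y ^ (kap f - 1)) / Real.log Y ^ η :=
    div_nonneg (mul_nonneg hC.le (hg0 Y)) (Real.rpow_nonneg hlog _)
  have h4 : (N : ℝ) * (C * (Y * Real.log Y ^ (kap f - 1)) / Real.log Y ^ η) ≤
      (N + 1) * (C * (Y * Real.log Y ^ (kap f - 1)) / Real.log Y ^ η) :=
    mul_le_mul_of_nonneg_right (by linarith) h3
  refine h4.trans (le_of_eq ?_)
  ring

end Pool.Agent.MP
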