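import Pool.Agent.Helper13.MP.All1
import Pool.Agent.Helper90.MP.LowC

/-!
# Project MP: everything

**The final theorem.**  Let `k` be a number field, `y² = h` a double cover of a curve `Y` over `k`
with hypothesis `H4`.  Then 100% of the twists `y² = c h` for which Frobenius elements at the primes
`v` with `v(c)` odd fix branch points (the locally soluble twists), in every coset of a subgroup of
finite index of `k*`, have no Galois section.
-/

set_option autoImplicit false

namespace Pool.Agent.MP

theorem fin : StmtFin := fin_of1 lowc

end Pool.Agent.MP
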