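import Pool.Agent.Helper13.MP.Fin3
import Pool.Agent.Helper13.M.All0
import Pool.Agent.Helper9.M.FT
import Pool.Agent.Helper99.MP.CountK
import Pool.Agent.Helper79.MP.DK
import Pool.Agent.Helper79.MP.G3K
import Pool.Agent.Helper88.MP.Low

/-!
# Project MP: everything but `StmtBIJ`, `StmtPIT`, `StmtLOWC`
-/

set_option autoImplicit false

namespace Pool.Agent.MP

open Pool.Agent.M

theorem fin_of3 (hBIJ : StmtBIJ) (hPIT : StmtPIT) (hLOWC : StmtLOWC) : StmtFin := by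
  have hLM : StmtLM := lm (Pool.Agent.L.stmtK2 Pool.Agent.L.stmtK1) Pool.Agent.L.stmtK3 k4M
    Pool.Agent.L.stmtAR
  have hFT : StmtFT := fT
  have hFIN : StmtFIN := fin hLM hFT hf Pool.Agent.L.stmtFR Pool.Agent.L.stmtAR
  have hINT : StmtINT := int hLM hFT coc nR Pool.Agent.L.stmtAR
  have hQMD : StmtQMD := qMD (pI hFT) Pool.Agent.Helper22.M.w4 (qW hFT (w1 hFT)) w2
  exact fin_of Pool.Agent.L.stmtTR Pool.Agent.L.loc nR fb hFIN z hINT lft (mu hFT) hQMD w3
    hBIJ Pool.Agent.Helper99.MP.countK dk g3K hPIT lowK hLOWC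

end Pool.Agent.MP
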