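import Pool.Agent.Helper13.MP.All0
import Pool.Agent.Helper59.MP.BIJ
import Pool.Agent.Helper28.MP.PIT

/-!
# Project MP: everything but `StmtLOWC`
-/

set_option autoImplicit false

namespace Pool.Agent.MP

theorem fin_of1 (hLOWC : StmtLOWC) : StmtFin := fin_of3 bIJ pit hLOWC

end Pool.Agent.MP
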