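import Pool.Agent.Helper13.MP.Fin2
import Pool.Agent.Helper13.M.Fin5
import Pool.Agent.Helper45.L.AllLoc

/-!
# Project MP: the final theorem from the blocks
-/

set_option autoImplicit false
set_option linter.unusedSectionVars false

namespace Pool.Agent.MP

open VC IntermediateField NumberField IsDedekindDomain Pool.Agent.SC Pool.Agent.L Pool.Agent.M
open Pool.Agent.HG (Pr nm IsOdd Ctx Gd Ev Od DatM StmtDer StmtSel StmtMert StmtSplit StmtBTL
  StmtThue StmtG4 StmtG2 StmtG1M StmtG2M StmtG3M Cls cond clsLE clsLE_finite cls_eq_iff)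

/-- the classes with `cond ≤ X` of the elements with property `P` -/
def clsU {k : Type} [Field k] [NumberField k] (P : kˣ → Prop) (X : ℕ) : Set (Cls k) :=
  {C | ∃ c : kˣ, (c : Cls k) = C ∧ cond (c : k) ≤ X ∧ P c}

theorem clsU_finite {k : Type} [Field k] [NumberField k] (hSel : StmtSel) (P : kˣ → Prop) (X : ℕ) :
    (clsU P X).Finite := by
  refine (clsLE_finite hSel X).subset fun C hC => ?_
  obtain ⟨c, h1, h2, -⟩ := hC
  exact ⟨c, h1, h2⟩

theorem clsU_le {k : Type} [Field k] [NumberField k] (hSel : StmtSel) (P : kˣ → Prop) (X : ℕ)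
    (b : ℝ) (h : ∀ T : Finset k, (∀ c ∈ T, ∀ c' ∈ T, (∃ d : k, c = c' * d ^ 2) → c = c') →
      (∀ c ∈ T, ∃ c' : kˣ, (c' : k) = c ∧ cond c ≤ X ∧ P c') → (T.card : ℝ) ≤ b) :
    (Nat.card (clsU P X) : ℝ) ≤ b := by
  classical
  have hfin := clsU_finite hSel P X
  have hch : ∀ C : Cls k, ∃ c : kˣ, C ∈ clsU P X → (c : Cls k) = C ∧ cond (c : k) ≤ X ∧ P c := by
    intro C
    by_cases hC : C ∈ clsU P X
    · obtain ⟨c, hc⟩ := hC
      exact ⟨c, fun _ => hc⟩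
    · exact ⟨1, fun h => absurd h hC⟩
  choose r hr using hch
  have hinj : ∀ C ∈ clsU P X, ∀ C' ∈ clsU P X, (∃ d : k, (r C : k) = (r C' : k) * d ^ 2) →
      C = C' := by
    intro C hC C' hC' hd
    rw [← (hr C hC).1, ← (hr C' hC').1]
    exact cls_eq_iff.2 hd
  have h1 := h (hfin.toFinset.image fun C => (r C : k)) (by
    intro c hc c' hc' hd
    obtain ⟨C, hC, rfl⟩ := Finset.mem_image.1 hc
    obtain ⟨C', hC', rfl⟩ := Finset.mem_image.1 hc'
    rw [hinj C (hfin.mem_toFinset.1 hC) C' (hfin.mem_toFinset.1 hC') hd]) (by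
    intro c hc
    obtain ⟨C, hC, rfl⟩ := Finset.mem_image.1 hc
    exact ⟨r C, rfl, (hr C (hfin.mem_toFinset.1 hC)).2⟩)
  rw [Finset.card_image_of_injOn] at h1
  · have h2 : Nat.card (clsU P X) = hfin.toFinset.card := Nat.card_eq_card_finite_toFinset hfin
    rw [h2]
    exact h1
  · intro C hC C' hC' h
    exact hinj C (hfin.mem_toFinset.1 hC) C' (hfin.mem_toFinset.1 hC')
      ⟨1, by rw [one_pow, mul_one]; exact h⟩

theorem le_clsU {k : Type} [Field k] [NumberField k] (hSel : StmtSel) (P : kˣ → Prop) (X : ℕ)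
    (T : Finset kˣ) (h1 : ∀ c ∈ T, ∀ c' ∈ T, (∃ d : k, (c : k) = c' * d ^ 2) → c = c')
    (h2 : ∀ c ∈ T, cond (c : k) ≤ X ∧ P c) : T.card ≤ Nat.card (clsU P X) := by
  classical
  have hfin := clsU_finite hSel P X
  have h3 : Nat.card (clsU P X) = hfin.toFinset.card := Nat.card_eq_card_finite_toFinset hfin
  rw [h3, ← Finset.card_image_of_injOn (f := fun c : kˣ => (c : Cls k)) (s := T)]
  · refine Finset.card_le_card fun C hC => ?_
    obtain ⟨c, hc, rfl⟩ := Finset.mem_image.1 hC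
    exact hfin.mem_toFinset.2 ⟨c, rfl, h2 c hc⟩
  · intro c hc c' hc' h
    exact h1 c hc c' hc' (cls_eq_iff.1 h)

/-- The final theorem of project MP, with classes. -/
def StmtFin : Prop :=
  ∀ (k K0 : Type) [Field k] [NumberField k] [Field K0] [Algebra k K0] (h : K0), GoodCurve k h →
    H4 k h →
    ∃ (Sg₀ : Set (Pr k)) (η : ℝ), Sg₀.Finite ∧ 0 < η ∧
      (∀ c : k, c ≠ 0 → HasSec h c → ∀ v ∉ Sg₀, IsOdd v c → FrobFix k h v) ∧
      ∀ Sg : Set (Pr k), Sg.Finite → Sg₀ ⊆ Sg → ∀ W : Subgroup kˣ, W.FiniteIndex → ∀ c₀ : kˣ,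
        (∀ v ∉ Sg, IsOdd v (c₀ : k) → FrobFix k h v) →
        ∃ C : ℝ, 0 < C ∧ ∀ X : ℕ, 3 ≤ X →
          (Nat.card (clsU (fun c : kˣ => c₀⁻¹ * c ∈ W ∧ HasSec h (c : k)) X) : ℝ) ≤
          C * Nat.card (clsU (fun c : kˣ => c₀⁻¹ * c ∈ W ∧
            ∀ v ∉ Sg, IsOdd v (c : k) → FrobFix k h v) X) / Real.log X ^ η

/-- The final theorem from the blocks. -/
theorem fin_of (hTR : StmtTR) (hLOC : StmtLOC) (hNR : StmtNR) (hFB : StmtFB) (hFIN : StmtFIN)
    (hZ : StmtZ) (hINT : StmtINT) (hLFT : StmtLFT) (hMU : StmtMU) (hQMD : StmtQMD)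
    (hW3 : StmtW3) (hBIJ : StmtBIJ) (hCK : StmtCountK) (hDK : StmtDK) (hG3K : StmtG3K)
    (hPIT : StmtPIT) (hLOWK : StmtLOWK) (hLOWC : StmtLOWC) : StmtFin := by
  intro k K0 _ _ _ _ h hG hH4
  have hSel : StmtSel := Pool.Agent.HG.sel
  obtain ⟨Bad, hBad, hloc⟩ := hLOC k K0 h hG
  have hloc' : ∀ c : k, c ≠ 0 → HasSec h c → ∀ v ∉ Bad, IsOdd v c → FrobFix k h v := by
    intro c hc hs v hv hodd
    obtain ⟨O, F, p, f, hD, P, φ, h1, h2, h3, h4⟩ := hloc v hv c hc hodd hs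
    refine ⟨O, F, p, f, hD, ⟨P, φ, h1, h2, h3⟩, ?_⟩
    have h5 : (F : AlgebraicClosure k →+* AlgebraicClosure k).comp φ = φ := RingHom.ext h4
    change (⟨P, (F : AlgebraicClosure k →+* AlgebraicClosure k).comp φ, _, _, _⟩ :
      GBr k (AlgebraicClosure k) h) = ⟨P, φ, _, _, _⟩
    congr 1
  obtain ⟨E, U, _, _, _, _, _, _, _, _, r, G, hact⟩ := hTR k K0 h hG
  by_cases hex : ∃ (c₁ : k) (Φ₁ : (E ≃ₐ[k] E) →* (U ≃+* U)), c₁ ≠ 0 ∧ Act (K0 := K0) r c₁ Φ₁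
  swap
  · -- no twist has a section
    refine ⟨Bad, 1, hBad, one_pos, hloc', fun Sg hSg hSub W hW c₀ hc₀ => ⟨1, one_pos,
      fun X hX => ?_⟩⟩
    have h0 : (Nat.card (clsU (fun c : kˣ => c₀⁻¹ * c ∈ W ∧ HasSec h (c : k)) X) : ℝ) ≤ 0 := by
      refine clsU_le hSel _ X 0 fun T _ hT => ?_
      have hT0 : T = ∅ := by
        rw [Finset.eq_empty_iff_forall_notMem]
        intro c hc
        obtain ⟨c', rfl, -, -, hs⟩ := hT c hc
        obtain ⟨Φ, hΦ⟩ := hact _ c'.ne_zero hs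
        exact hex ⟨_, Φ, c'.ne_zero, hΦ⟩
      rw [hT0, Finset.card_empty, Nat.cast_zero]
    refine h0.trans ?_
    have hlog : 0 ≤ Real.log X := Real.log_natCast_nonneg X
    positivity
  obtain ⟨c₁, Φ₁, hc₁, hA₁⟩ := hex
  have hclE : IsAlgClosed E := G.clE
  have halg : Algebra.IsAlgebraic k E := G.algE
  have hcl : IsAlgClosure k E := ⟨hclE, halg⟩
  let e : E ≃ₐ[k] AlgebraicClosure k := IsAlgClosure.equiv k E (AlgebraicClosure k)
  obtain ⟨f, θ, Gl⟩ := exists_glE hNR hFB G (noRat_of_H4 hH4) hc₁ hA₁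
  obtain ⟨β, hβ⟩ := hBIJ k K0 E U h r G c₁ Φ₁ hc₁ hA₁
  obtain ⟨H5, HJ⟩ := h4_E e hH4
  obtain ⟨H5', HJ'⟩ := h4_places H5 HJ β hβ
  have hroots := fun (L : Type) [Field L] [NumberField L] [Algebra k L] [IsGalois k L]
    (hs : (f.map (algebraMap k L)).Splits) =>
    h4_roots (L := L) Gl hc₁ hA₁ (IsAlgClosed.lift : L →ₐ[k] E) hs H5' HJ'
  have hNF : NumberField f.SplittingField := NumberField.of_module_finite k f.SplittingField
  have hGal : IsGalois k f.SplittingField := IsGalois.of_separable_splitting_field Gl.sep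
  have hdeg : 5 ≤ f.natDegree :=
    (hroots f.SplittingField (Polynomial.SplittingField.splits f)).1
  obtain ⟨η, C, hη, hC, hup⟩ := upperK hFIN hZ hINT hLFT hMU hQMD hW3 hSel
    Pool.Agent.Helper21.HG.mert Pool.Agent.Helper21.HG.split
    (Pool.Agent.HG.btl Pool.Agent.Helper21.HG.mert) Pool.Agent.Helper88.HG.thue
    Pool.Agent.Helper88.HG.g4 Pool.Agent.HG.g2 Pool.Agent.HG.g1M Pool.Agent.HG.g2M
    hDK hG3K hCK G Gl hdeg (fun L _ _ _ _ hs => (hroots L hs).2)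
  refine ⟨Bad, η, hBad, hη, hloc', fun Sg hSg hSub W hW c₀ hc₀ => ?_⟩
  obtain ⟨δ, X₀, hδ, hlow⟩ := lowerK hLFT hW3 Pool.Agent.Helper21.HG.mert
    Pool.Agent.Helper88.HG.thue Pool.Agent.Helper88.HG.g4 hDK hPIT hLOWK hLOWC G Gl (by omega)
    hc₁ hA₁ e β hβ hSg hW hc₀
  have hlX0 : 0 ≤ Real.log ((X₀ : ℕ) : ℝ) := Real.log_natCast_nonneg X₀
  refine ⟨C / δ + Real.log X₀ ^ η, by positivity, fun X hX => ?_⟩
  have hlog : 0 < Real.log X := Real.log_pos (by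
    have h1 : (3 : ℝ) ≤ X := by exact_mod_cast hX
    linarith)
  have hlη : 0 < Real.log X ^ η := Real.rpow_pos_of_pos hlog η
  obtain ⟨NL, hNL⟩ : ∃ n : ℝ, n = Nat.card (clsU (fun c : kˣ => c₀⁻¹ * c ∈ W ∧
            ∀ v ∉ Sg, IsOdd v (c : k) → FrobFix k h v) X) := ⟨_, rfl⟩
  have hNL0 : 0 ≤ NL := by rw [hNL]; exact Nat.cast_nonneg _
  rw [← hNL]
  rw [le_div_iff₀ hlη, add_mul]
  rcases le_or_gt X₀ X with hXX | hXX
  · -- large `X`
    obtain ⟨T, hT1, hT2, hT3⟩ := hlow X hXX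
    have h1 := le_clsU hSel (fun c : kˣ => c₀⁻¹ * c ∈ W ∧
      ∀ v ∉ Sg, IsOdd v (c : k) → FrobFix k h v) X T hT1 hT2
    have h2 : (T.card : ℝ) ≤ NL := by
      rw [hNL]
      exact_mod_cast h1
    have h3 : (Nat.card (clsU (fun c : kˣ => c₀⁻¹ * c ∈ W ∧ HasSec h (c : k)) X) : ℝ) ≤
        C * (X * Real.log X ^ (kap f - 1)) / Real.log X ^ η := by
      refine clsU_le hSel _ X _ fun T hT1 hT2 => ?_
      refine hup X hX T hT1 fun c hc => ?_
      obtain ⟨c', rfl, h4, -, h5⟩ := hT2 c hc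
      exact ⟨c'.ne_zero, h4, hact _ c'.ne_zero h5⟩
    rw [le_div_iff₀ hlη] at h3
    have h4 : C * (X * Real.log X ^ (kap f - 1)) ≤ C / δ * NL := by
      calc C * (X * Real.log X ^ (kap f - 1)) =
          C / δ * (δ * (X * Real.log X ^ (kap f - 1))) := by field_simp
        _ ≤ C / δ * NL := mul_le_mul_of_nonneg_left (hT3.trans h2) (by positivity)
    have h5 : 0 ≤ Real.log X₀ ^ η * NL := by positivity
    linarith
  · -- small `X`
    have h1 : (Nat.card (clsU (fun c : kˣ => c₀⁻¹ * c ∈ W ∧ HasSec h (c : k)) X) : ℝ) ≤ NL := by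
      rw [hNL]
      have h2 : clsU (fun c : kˣ => c₀⁻¹ * c ∈ W ∧ HasSec h (c : k)) X ⊆
          clsU (fun c : kˣ => c₀⁻¹ * c ∈ W ∧ ∀ v ∉ Sg, IsOdd v (c : k) → FrobFix k h v) X := by
        rintro _ ⟨c, rfl, h3, h4, h5⟩
        exact ⟨c, rfl, h3, h4, fun v hv => hloc' _ c.ne_zero h5 v fun h6 => hv (hSub h6)⟩
      exact_mod_cast Nat.card_mono (clsU_finite hSel _ X) h2
    have h3 : Real.log X ^ η ≤ Real.log X₀ ^ η := by
      refine Real.rpow_le_rpow hlog.le ?_ hη.le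
      refine Real.log_le_log (by
        have h1 : (3 : ℝ) ≤ X := by exact_mod_cast hX
        linarith) ?_
      exact_mod_cast hXX.le
    have h4 : (Nat.card (clsU (fun c : kˣ => c₀⁻¹ * c ∈ W ∧ HasSec h (c : k)) X) : ℝ) *
        Real.log X ^ η ≤ Real.log X₀ ^ η * NL := by
      rw [mul_comm]
      exact mul_le_mul h3 h1 (Nat.cast_nonneg _) (Real.rpow_nonneg hlX0 η)
    have h5 : 0 ≤ C / δ * NL := by positivity
    linarith

end Pool.Agent.MP
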